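/-
helper43: module EQUI of helper10's permutation stability theorem.
-/
import Pool.Agent.H10.PS.Targets

set_option autoImplicit false

namespace Pool.Agent.H43.PS

open Pool.Agent.H10.PS

/-- the possible centres -/
def ff {r : ℕ} {J Ω : Type} (γ : J → FG r) (σ : FG r →* Equiv.Perm Ω) (z : Ω) (i : J × J) : Ω :=
  σ ((γ i.1)⁻¹ * γ i.2) z

theorem act_eq_iff {r : ℕ} {Ω : Type} (σ : FG r →* Equiv.Perm Ω) (z : Ω) (u v : FG r) :
    σ u z = σ v z ↔ σ (v⁻¹ * u) z = z := by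
  rw [map_mul, map_inv, Equiv.Perm.mul_apply, Equiv.Perm.inv_eq_iff_eq]

theorem ff_self {r : ℕ} {J Ω : Type} (γ : J → FG r) (σ : FG r →* Equiv.Perm Ω) (z : Ω) (j : J) :
    ff γ σ z (j, j) = z := by
  simp [ff]

theorem ff_eq_iff {r : ℕ} {J Ω Ω' : Type} (γ : J → FG r) (σ : FG r →* Equiv.Perm Ω)
    (σ' : FG r →* Equiv.Perm Ω') (z : Ω) (z' : Ω')
    (h : ∀ w ∈ EE γ, (σ w z = z ↔ σ' w z' = z')) (i i' : J × J) :
    ff γ σ z i = ff γ σ z i' ↔ ff γ σ' z' i = ff γ σ' z' i' := by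
  unfold ff
  rw [act_eq_iff, act_eq_iff]
  apply h
  exact ⟨i'.2, i'.1, i.1, i.2, by group⟩

theorem mult_ff {r : ℕ} {J Ω Ω' : Type} (γ : J → FG r) (σ : FG r →* Equiv.Perm Ω)
    (σ' : FG r →* Equiv.Perm Ω') (z : Ω) (z' : Ω')
    (h : ∀ w ∈ EE γ, (σ w z = z ↔ σ' w z' = z')) (j : J) (i : J × J) :
    mult γ σ (σ (γ j) z) (ff γ σ z i) = mult γ σ' (σ' (γ j) z') (ff γ σ' z' i) := by
  unfold mult
  apply Nat.card_congr
  apply Equiv.subtypeEquivRight
  intro b
  unfold ff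
  rw [← Equiv.Perm.mul_apply, ← map_mul, ← Equiv.Perm.mul_apply, ← map_mul, act_eq_iff,
    act_eq_iff]
  apply h
  exact ⟨j, b, i.1, i.2, by group⟩

theorem tick_mem {r : ℕ} {J Ω : Type} [Fintype J] (γ : J → FG r) (σ : FG r →* Equiv.Perm Ω)
    (m : ℕ) (z : Ω) (j : J) (t : Ω × Fin m) (ht : t ∈ Tick γ σ m (σ (γ j) z)) :
    ∃ b, t.1 = ff γ σ z (b, j) := by
  have h1 : (t.2 : ℕ) < mult γ σ (σ (γ j) z) t.1 := ht
  have h2 : 0 < Nat.card {j' : J // σ (γ j') t.1 = σ (γ j) z} := lt_of_le_of_lt (Nat.zero_le _) h1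
  obtain ⟨⟨b, hb⟩⟩ := (Nat.card_pos_iff.mp h2).1
  refine ⟨b, ?_⟩
  unfold ff
  rw [map_mul, map_inv, Equiv.Perm.mul_apply, ← hb]
  simp

theorem ctr_imp {r : ℕ} {J Ω Ω' : Type} [Fintype J] (γ : J → FG r) (σ : FG r →* Equiv.Perm Ω)
    (σ' : FG r →* Equiv.Perm Ω') {m M : ℕ} (z : Ω) (z' : Ω')
    (h : ∀ w ∈ EE γ, (σ w z = z ↔ σ' w z' = z')) (l : Ω × Fin m → Fin M) (l' : Ω' × Fin m → Fin M)
    (hl : ∀ i k, l (ff γ σ z i, k) = l' (ff γ σ' z' i, k)) (j : J)
    (hc : Ctr γ σ l (σ (γ j) z) z) : Ctr γ σ' l' (σ' (γ j) z') z' := by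
  obtain ⟨k, hk, hmin⟩ := hc
  have hlz : l (z, k) = l' (z', k) := by
    have := hl (j, j) k
    rwa [ff_self, ff_self] at this
  refine ⟨k, ?_, ?_⟩
  · have h1 : (k : ℕ) < mult γ σ (σ (γ j) z) z := hk
    have h2 := mult_ff γ σ σ' z z' h j (j, j)
    rw [ff_self, ff_self] at h2
    rw [h2] at h1
    exact h1
  · intro t' ht' hne
    obtain ⟨b, hb⟩ := tick_mem γ σ' m z' j t' ht'
    obtain ⟨c', k'⟩ := t'
    simp only at hb
    subst hb
    have h3 : (ff γ σ z (b, j), k') ∈ Tick γ σ m (σ (γ j) z) := by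
      have h4 : (k' : ℕ) < mult γ σ' (σ' (γ j) z') (ff γ σ' z' (b, j)) := ht'
      rw [← mult_ff γ σ σ' z z' h j (b, j)] at h4
      exact h4
    have h5 : (ff γ σ z (b, j), k') ≠ (z, k) := by
      intro he
      apply hne
      have he1 : ff γ σ z (b, j) = ff γ σ z (j, j) := by
        rw [ff_self]; exact congrArg Prod.fst he
      have he2 : k' = k := congrArg Prod.snd he
      have := (ff_eq_iff γ σ σ' z z' h (b, j) (j, j)).1 he1
      rw [ff_self] at this
      rw [this, he2]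
    have := hmin _ h3 h5
    rw [hlz, hl] at this
    exact this

theorem ty_eq {r : ℕ} {J Ω Ω' : Type} [Fintype J] (γ : J → FG r) (σ : FG r →* Equiv.Perm Ω)
    (σ' : FG r →* Equiv.Perm Ω') {m M : ℕ} (z : Ω) (z' : Ω')
    (h : ∀ w ∈ EE γ, (σ w z = z ↔ σ' w z' = z')) (l : Ω × Fin m → Fin M) (l' : Ω' × Fin m → Fin M)
    (hl : ∀ i k, l (ff γ σ z i, k) = l' (ff γ σ' z' i, k)) :
    Ty γ σ l z = Ty γ σ' l' z' := by
  ext j
  exact ⟨ctr_imp γ σ σ' z z' h l l' hl j,
    ctr_imp γ σ' σ z' z (fun w hw => (h w hw).symm) l' l (fun i k => (hl i k).symm) j⟩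

/-- counting functions with a given restriction -/
theorem count {A : Type} [Fintype A] (p : A → Prop) (M : ℕ) (hM : 0 < M)
    (P : ({a // p a} → Fin M) → Prop) :
    (Nat.card {l : A → Fin M // P (fun a => l a)} : ℝ) / (M : ℝ) ^ (Fintype.card A) =
      (Nat.card {l : {a // p a} → Fin M // P l} : ℝ) / (M : ℝ) ^ (Nat.card {a // p a}) := by
  classical
  have e : {l : A → Fin M // P (fun a => l a)} ≃
      {l : {a // p a} → Fin M // P l} × ({a // ¬ p a} → Fin M) := by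
    refine Equiv.trans (Equiv.subtypeEquiv (Equiv.piEquivPiSubtypeProd p (fun _ => Fin M))
      (q := fun q => P q.1) ?_) ?_
    · intro l
      rfl
    · exact
        { toFun := fun q => (⟨q.1.1, q.2⟩, q.1.2)
          invFun := fun q => ⟨(q.1.1, q.2), q.1.2⟩
          left_inv := fun q => rfl
          right_inv := fun q => rfl }
  have h1 : Nat.card {l : A → Fin M // P (fun a => l a)} =
      Nat.card {l : {a // p a} → Fin M // P l} * M ^ (Fintype.card {a // ¬ p a}) := by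
    rw [Nat.card_congr e, Nat.card_prod]
    congr 1
    rw [Nat.card_eq_fintype_card, Fintype.card_fun, Fintype.card_fin]
  have h2 : Fintype.card A = Nat.card {a // p a} + Fintype.card {a // ¬ p a} := by
    rw [Nat.card_eq_fintype_card, Fintype.card_subtype_compl]
    have := Fintype.card_subtype_le p
    omega
  rw [h1, h2, pow_add]
  push_cast
  have hM' : (M : ℝ) ≠ 0 := by positivity
  field_simp

theorem EQUI : T_EQUI := by
  classical
  intro r J Ω Ω' _ _ _ γ σ σ' m M hM hm z z' h S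
  set p : Ω × Fin m → Prop := fun t => ∃ i, t.1 = ff γ σ z i with hp
  set p' : Ω' × Fin m → Prop := fun t => ∃ i, t.1 = ff γ σ' z' i with hp'
  -- extension by a constant
  let ext1 : ({a // p a} → Fin M) → (Ω × Fin m → Fin M) := fun l t =>
    if ht : p t then l ⟨t, ht⟩ else ⟨0, hM⟩
  let ext2 : ({a // p' a} → Fin M) → (Ω' × Fin m → Fin M) := fun l t =>
    if ht : p' t then l ⟨t, ht⟩ else ⟨0, hM⟩
  have hext1 : ∀ (l : {a // p a} → Fin M) t (ht : p t), ext1 l t = l ⟨t, ht⟩ := fun l t ht => by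
    simp only [ext1, dif_pos ht]
  have hext2 : ∀ (l : {a // p' a} → Fin M) t (ht : p' t), ext2 l t = l ⟨t, ht⟩ := fun l t ht => by
    simp only [ext2, dif_pos ht]
  have hself : ∀ w ∈ EE γ, (σ w z = z ↔ σ w z = z) := fun _ _ => Iff.rfl
  have hself' : ∀ w ∈ EE γ, (σ' w z' = z' ↔ σ' w z' = z') := fun _ _ => Iff.rfl
  have c1 : {l : Ω × Fin m → Fin M // Ty γ σ l z = S} =
      {l : Ω × Fin m → Fin M // (fun l => Ty γ σ (ext1 l) z = S) (fun a => l a)} := by
    congr 1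
    ext l
    have : Ty γ σ l z = Ty γ σ (ext1 (fun a => l a)) z := by
      apply ty_eq γ σ σ z z hself
      intro i k
      exact (hext1 (fun a => l a.1) (ff γ σ z i, k) ⟨i, rfl⟩).symm
    simp only [this]
  have c2 : {l : Ω' × Fin m → Fin M // Ty γ σ' l z' = S} =
      {l : Ω' × Fin m → Fin M // (fun l => Ty γ σ' (ext2 l) z' = S) (fun a => l a)} := by
    congr 1
    ext l
    have : Ty γ σ' l z' = Ty γ σ' (ext2 (fun a => l a)) z' := by
      apply ty_eq γ σ' σ' z' z' hself'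
      intro i k
      exact (hext2 (fun a => l a.1) (ff γ σ' z' i, k) ⟨i, rfl⟩).symm
    simp only [this]
  have k1 := count p M hM (fun l => Ty γ σ (ext1 l) z = S)
  have k2 := count p' M hM (fun l => Ty γ σ' (ext2 l) z' = S)
  rw [Fintype.card_prod, Fintype.card_fin] at k1 k2
  rw [c1, c2, k1, k2]
  -- the equivalence
  have hff := ff_eq_iff γ σ σ' z z' h
  let E : {a // p a} ≃ {a // p' a} :=
    { toFun := fun a => ⟨(ff γ σ' z' a.2.choose, a.1.2), ⟨_, rfl⟩⟩
      invFun := fun a => ⟨(ff γ σ z a.2.choose, a.1.2), ⟨_, rfl⟩⟩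
      left_inv := by
        intro a
        apply Subtype.ext
        apply Prod.ext
        · simp only
          have h2 : p' (ff γ σ' z' a.2.choose, a.1.2) := ⟨_, rfl⟩
          exact ((hff _ _).2 h2.choose_spec.symm).trans a.2.choose_spec.symm
        · rfl
      right_inv := by
        intro a
        apply Subtype.ext
        apply Prod.ext
        · simp only
          have h2 : p (ff γ σ z a.2.choose, a.1.2) := ⟨_, rfl⟩
          exact ((hff _ _).1 h2.choose_spec.symm).trans a.2.choose_spec.symm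
        · rfl }
  have hE : ∀ i k, (E ⟨(ff γ σ z i, k), ⟨i, rfl⟩⟩) = ⟨(ff γ σ' z' i, k), ⟨i, rfl⟩⟩ := by
    intro i k
    apply Subtype.ext
    apply Prod.ext
    · have h2 : p (ff γ σ z i, k) := ⟨i, rfl⟩
      have h3 := h2.choose_spec
      show ff γ σ' z' h2.choose = ff γ σ' z' i
      rw [← hff]
      exact h3.symm
    · rfl
  have hcard : Nat.card {a // p a} = Nat.card {a // p' a} := Nat.card_congr E
  rw [hcard]
  congr 2
  apply Nat.card_congr
  refine Equiv.subtypeEquiv (Equiv.arrowCongr E (Equiv.refl _)) ?_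
  intro l
  have : Ty γ σ (ext1 l) z = Ty γ σ' (ext2 ((Equiv.arrowCongr E (Equiv.refl _)) l)) z' := by
    apply ty_eq γ σ σ' z z' h
    intro i k
    rw [hext1 l (ff γ σ z i, k) ⟨i, rfl⟩, hext2 _ (ff γ σ' z' i, k) ⟨i, rfl⟩]
    simp only [Equiv.arrowCongr_apply, Equiv.coe_refl, Function.comp, id]
    rw [← hE i k, Equiv.symm_apply_apply]
  rw [this]

end Pool.Agent.H43.PS
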