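/-
helper43: module STAB of helper10's permutation stability theorem.
-/
import Pool.Agent.H10.PS.Targets

set_option autoImplicit false

open Filter Topology

namespace Pool.Agent.H43.PS

open Pool.Agent.H10.PS

/-- normalised Hamming distance -/
noncomputable def dd {n : ℕ} (α β : Equiv.Perm (Fin n)) : ℝ :=
  ((Finset.univ.filter (fun i => α i ≠ β i)).card : ℝ) / (n : ℝ)

theorem dd_nonneg {n : ℕ} (α β : Equiv.Perm (Fin n)) : 0 ≤ dd α β := by
  unfold dd; positivity

theorem dd_self {n : ℕ} (α : Equiv.Perm (Fin n)) : dd α α = 0 := by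
  unfold dd; simp

theorem dd_comm {n : ℕ} (α β : Equiv.Perm (Fin n)) : dd α β = dd β α := by
  unfold dd
  have : (Finset.univ.filter (fun i => α i ≠ β i)) = (Finset.univ.filter (fun i => β i ≠ α i)) := by
    ext i; simp only [Finset.mem_filter, Finset.mem_univ, true_and]; exact ne_comm
  rw [this]

theorem dd_triangle {n : ℕ} (α β γ : Equiv.Perm (Fin n)) : dd α γ ≤ dd α β + dd β γ := by
  unfold dd
  rw [← add_div]
  apply div_le_div_of_nonneg_right _ (Nat.cast_nonneg n)
  have : (Finset.univ.filter (fun i => α i ≠ γ i)) ⊆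
      (Finset.univ.filter (fun i => α i ≠ β i)) ∪ (Finset.univ.filter (fun i => β i ≠ γ i)) := by
    intro i
    simp only [Finset.mem_filter, Finset.mem_univ, true_and, Finset.mem_union]
    intro h
    by_contra hc
    push Not at hc
    exact h (hc.1.trans hc.2)
  exact_mod_cast (Finset.card_le_card this).trans (Finset.card_union_le _ _)

theorem dd_left {n : ℕ} (γ α β : Equiv.Perm (Fin n)) : dd (γ * α) (γ * β) = dd α β := by
  unfold dd
  have : (Finset.univ.filter (fun i => (γ * α) i ≠ (γ * β) i)) =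
      (Finset.univ.filter (fun i => α i ≠ β i)) := by
    ext i
    simp [Equiv.Perm.mul_apply]
  rw [this]

theorem dd_right {n : ℕ} (γ α β : Equiv.Perm (Fin n)) : dd (α * γ) (β * γ) = dd α β := by
  unfold dd
  have : (Finset.univ.filter (fun i => (α * γ) i ≠ (β * γ) i)).card =
      (Finset.univ.filter (fun i => α i ≠ β i)).card := by
    apply Finset.card_bij (fun i _ => γ i)
    · intro i hi
      rw [Finset.mem_filter] at hi ⊢
      exact ⟨Finset.mem_univ _, hi.2⟩
    · intro i _ j _ h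
      exact γ.injective h
    · intro j hj
      rw [Finset.mem_filter] at hj
      refine ⟨γ⁻¹ j, ?_, ?_⟩
      · rw [Finset.mem_filter]
        refine ⟨Finset.mem_univ _, ?_⟩
        rw [Equiv.Perm.mul_apply, Equiv.Perm.mul_apply]
        have h0 : γ (γ⁻¹ j) = j := by simp
        rw [h0]
        exact hj.2
      · simp
  rw [this]

theorem dd_mul {n : ℕ} (α β α' β' : Equiv.Perm (Fin n)) :
    dd (α * β) (α' * β') ≤ dd α α' + dd β β' := by
  calc dd (α * β) (α' * β') ≤ dd (α * β) (α' * β) + dd (α' * β) (α' * β') := dd_triangle _ _ _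
    _ = dd α α' + dd β β' := by rw [dd_right, dd_left]

theorem dd_inv {n : ℕ} (α β : Equiv.Perm (Fin n)) : dd α⁻¹ β⁻¹ = dd α β := by
  calc dd α⁻¹ β⁻¹ = dd (α⁻¹ * β) (β⁻¹ * β) := (dd_right _ _ _).symm
    _ = dd (α⁻¹ * β) (α⁻¹ * α) := by rw [inv_mul_cancel, inv_mul_cancel]
    _ = dd β α := dd_left _ _ _
    _ = dd α β := dd_comm _ _

theorem dd_natCard {n : ℕ} (α β : Equiv.Perm (Fin n)) :
    (Nat.card {i : Fin n // α i ≠ β i} : ℝ) = (Finset.univ.filter (fun i => α i ≠ β i)).card := by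
  rw [Nat.card_eq_fintype_card, Fintype.card_subtype]

/-- closeness on generators implies closeness on words -/
theorem close_words {r : ℕ} {n : ℕ → ℕ} (σ ρ : ∀ k, FG r →* Equiv.Perm (Fin (n k)))
    (h : ∀ i, Tendsto (fun k => dd (σ k (FreeGroup.of i)) (ρ k (FreeGroup.of i))) atTop (𝓝 0))
    (w : FG r) : Tendsto (fun k => dd (σ k w) (ρ k w)) atTop (𝓝 0) := by
  induction w using FreeGroup.induction_on with
  | C1 => simp [dd_self]
  | of i => exact h i
  | inv_of i hi =>
    refine hi.congr ?_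
    intro k
    rw [map_inv, map_inv, dd_inv]
  | mul a b ha hb =>
    refine squeeze_zero (fun k => dd_nonneg _ _) (fun k => ?_) (by simpa using ha.add hb)
    rw [map_mul, map_mul]
    exact dd_mul _ _ _ _

theorem claimA {r : ℕ} {G : Type} [Group G] (π : FG r →* G) {n : ℕ → ℕ}
    (f : ∀ k : ℕ, G → Equiv.Perm (Fin (n k)))
    (hf : ∀ g h : G, Tendsto (fun k => dd (f k (g * h)) (f k g * f k h)) atTop (𝓝 0))
    (w : FG r) :
    Tendsto (fun k => dd (FreeGroup.lift (fun i => f k (π (FreeGroup.of i))) w) (f k (π w)))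
      atTop (𝓝 0) := by
  have h1 : Tendsto (fun k => dd 1 (f k 1)) atTop (𝓝 0) := by
    have := hf 1 1
    refine this.congr ?_
    intro k
    rw [mul_one]
    calc dd (f k 1) (f k 1 * f k 1) = dd (f k 1 * 1) (f k 1 * f k 1) := by rw [mul_one]
      _ = _ := dd_left _ _ _
  have hinv : ∀ g : G, Tendsto (fun k => dd (f k g)⁻¹ (f k g⁻¹)) atTop (𝓝 0) := by
    intro g
    have h2 := (hf g g⁻¹).add h1
    rw [add_zero] at h2
    refine squeeze_zero (fun k => dd_nonneg _ _) (fun k => ?_) h2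
    calc dd (f k g)⁻¹ (f k g⁻¹) = dd (f k g * (f k g)⁻¹) (f k g * f k g⁻¹) := (dd_left _ _ _).symm
      _ = dd 1 (f k g * f k g⁻¹) := by rw [mul_inv_cancel]
      _ ≤ dd 1 (f k 1) + dd (f k 1) (f k g * f k g⁻¹) := dd_triangle _ _ _
      _ = dd (f k (g * g⁻¹)) (f k g * f k g⁻¹) + dd 1 (f k 1) := by
          rw [mul_inv_cancel, add_comm]
  induction w using FreeGroup.induction_on with
  | C1 => simpa using h1
  | of i => simp [dd_self]
  | inv_of i hi =>
    have := hinv (π (FreeGroup.of i))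
    simpa using this
  | mul a b ha hb =>
    have h3 := (ha.add hb).add (hf (π a) (π b))
    simp only [add_zero] at h3
    refine squeeze_zero (fun k => dd_nonneg _ _) (fun k => ?_) h3
    rw [map_mul, map_mul π]
    refine (dd_triangle _ (f k (π a) * f k (π b)) _).trans ?_
    rw [dd_comm (f k (π a) * f k (π b))]
    have := dd_mul (FreeGroup.lift (fun i => f k (π (FreeGroup.of i))) a)
      (FreeGroup.lift (fun i => f k (π (FreeGroup.of i))) b) (f k (π a)) (f k (π b))
    linarith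

instance finHom (r n : ℕ) : Finite (FG r →* Equiv.Perm (Fin n)) :=
  Finite.of_equiv _ (FreeGroup.lift (α := Fin r) (β := Equiv.Perm (Fin n)))

theorem STAB (h : T_SEQ) : T_STAB := by
  intro r m R hR hcomm G _ π hπ hker n f hf0
  have hf : ∀ g h : G, Tendsto (fun k => dd (f k (g * h)) (f k g * f k h)) atTop (𝓝 0) := hf0
  set σ : ∀ k, FG r →* Equiv.Perm (Fin (n k)) := fun k =>
    FreeGroup.lift (fun i => f k (π (FreeGroup.of i))) with hσ
  have hA : ∀ w, Tendsto (fun k => dd (σ k w) (f k (π w))) atTop (𝓝 0) := claimA π f hf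
  have h1 : Tendsto (fun k => dd 1 (f k 1)) atTop (𝓝 0) := by
    have := hA 1
    simpa using this
  have hK : ∀ w ∈ NN R m, Tendsto (fun k => dd (σ k w) 1) atTop (𝓝 0) := by
    intro w hw
    rw [← hker] at hw
    have hw1 : π w = 1 := hw
    have h2 := (hA w).add h1
    rw [add_zero] at h2
    refine squeeze_zero (fun k => dd_nonneg _ _) (fun k => ?_) h2
    refine (dd_triangle _ (f k (π w)) _).trans ?_
    rw [hw1, dd_comm (f k 1) 1]
  -- claim B
  have hB : ∀ ε : ℝ, 0 < ε → ∀ᶠ k in atTop, ∃ ρ : FG r →* Equiv.Perm (Fin (n k)),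
      NN R m ≤ ρ.ker ∧ ∀ i, dd (σ k (FreeGroup.of i)) (ρ (FreeGroup.of i)) ≤ ε := by
    intro ε hε
    by_contra hbad
    obtain ⟨φ, hφ, hbad⟩ := extraction_of_frequently_atTop (not_eventually.mp hbad)
    have hpos : ∀ k, 0 < n (φ k) := by
      intro k
      rcases Nat.eq_zero_or_pos (n (φ k)) with h0 | h0
      · exfalso
        apply hbad k
        refine ⟨1, ?_, ?_⟩
        · intro w _
          rfl
        · intro i
          have h0' : (n (φ k) : ℝ) = 0 := by exact_mod_cast h0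
          unfold dd
          rw [div_eq_mul_inv, h0', inv_zero, mul_zero]
          exact hε.le
      · exact h0
    have hlim : ∀ w ∈ NN R m,
      Tendsto (fun k => (Nat.card {ω : Fin (n (φ k)) // σ (φ k) w ω ≠ ω} : ℝ) / n (φ k))
        (hyperfilter ℕ : Filter ℕ) (𝓝 0) := by
      intro w hw
      have h3 := ((hK w hw).comp hφ.tendsto_atTop).mono_left Nat.hyperfilter_le_atTop
      refine h3.congr ?_
      intro k
      have := dd_natCard (σ (φ k) w) 1
      simp only [Equiv.Perm.one_apply] at this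
      rw [this]
      rfl
    have h4 := h r m R hR hcomm (hyperfilter ℕ) (fun k => n (φ k)) (fun k => σ (φ k)) hpos hlim ε hε
    obtain ⟨k, ρ, hρ, hρ'⟩ := h4.exists
    apply hbad k
    refine ⟨ρ, hρ, ?_⟩
    intro i
    have h5 := hρ' i
    unfold dd
    rw [div_le_iff₀ (by exact_mod_cast hpos k)]
    rw [← dd_natCard]
    exact h5
  -- minimisers
  have hmin : ∀ k, ∃ ρ : FG r →* Equiv.Perm (Fin (n k)), NN R m ≤ ρ.ker ∧
      ∀ ρ' : FG r →* Equiv.Perm (Fin (n k)), NN R m ≤ ρ'.ker →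
        ∑ i, dd (σ k (FreeGroup.of i)) (ρ (FreeGroup.of i)) ≤
          ∑ i, dd (σ k (FreeGroup.of i)) (ρ' (FreeGroup.of i)) := by
    intro k
    obtain ⟨ρ, hρ, hmin⟩ := Set.exists_min_image
      {ρ : FG r →* Equiv.Perm (Fin (n k)) | NN R m ≤ ρ.ker}
      (fun ρ => ∑ i, dd (σ k (FreeGroup.of i)) (ρ (FreeGroup.of i)))
      (Set.toFinite _) ⟨1, fun w _ => rfl⟩
    exact ⟨ρ, hρ, fun ρ' hρ' => hmin ρ' hρ'⟩
  choose ρ hρ hρmin using hmin
  have hsum : Tendsto (fun k => ∑ i, dd (σ k (FreeGroup.of i)) (ρ k (FreeGroup.of i)))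
      atTop (𝓝 0) := by
    rw [Metric.tendsto_atTop]
    intro ε hε
    have h6 := hB (ε / (r + 1)) (by positivity)
    rw [eventually_atTop] at h6
    obtain ⟨N, hN⟩ := h6
    refine ⟨N, fun k hk => ?_⟩
    obtain ⟨ρ', hρ', hle⟩ := hN k hk
    have h7 := hρmin k ρ' hρ'
    have h8 : ∑ i, dd (σ k (FreeGroup.of i)) (ρ' (FreeGroup.of i)) ≤ r * (ε / (r + 1)) := by
      calc _ ≤ ∑ i : Fin r, ε / (r + 1) := Finset.sum_le_sum (fun i _ => hle i)
        _ = _ := by simp
    have h9 : (r : ℝ) * (ε / (r + 1)) < ε := by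
      have : (0 : ℝ) < r + 1 := by positivity
      rw [← mul_div_assoc, div_lt_iff₀ this]
      nlinarith
    have h10 : 0 ≤ ∑ i, dd (σ k (FreeGroup.of i)) (ρ k (FreeGroup.of i)) :=
      Finset.sum_nonneg (fun i _ => dd_nonneg _ _)
    rw [Real.dist_eq, sub_zero, abs_of_nonneg h10]
    linarith
  have hgen : ∀ i, Tendsto (fun k => dd (σ k (FreeGroup.of i)) (ρ k (FreeGroup.of i)))
      atTop (𝓝 0) := by
    intro i
    refine squeeze_zero (fun k => dd_nonneg _ _) (fun k => ?_) hsum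
    exact Finset.single_le_sum (f := fun i => dd (σ k (FreeGroup.of i)) (ρ k (FreeGroup.of i)))
      (fun i _ => dd_nonneg _ _) (Finset.mem_univ i)
  have hall := close_words σ ρ hgen
  refine ⟨fun k => π.liftOfSurjective hπ ⟨ρ k, by rw [hker]; exact hρ k⟩, ?_⟩
  intro g
  obtain ⟨w, rfl⟩ := hπ g
  have h11 := (hA w).add (hall w)
  rw [add_zero] at h11
  show Tendsto (fun k => dd (f k (π w)) _) atTop (𝓝 0)
  refine squeeze_zero (fun k => dd_nonneg _ _) (fun k => ?_) h11
  have h12 : π.liftOfSurjective hπ ⟨ρ k, by rw [hker]; exact hρ k⟩ (π w) = ρ k w :=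
    MonoidHom.liftOfRightInverse_comp_apply _ _ _ _ _
  rw [h12]
  refine (dd_triangle _ (σ k w) _).trans ?_
  rw [dd_comm (f k (π w))]

end Pool.Agent.H43.PS
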