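import Pool.Agent.H43.PS.Targets

/-! Second part of the board `psd_modules`: the psd lemma and the exponent. -/

namespace H43.PS

open Matrix Finset

/-- LSH: translation invariance of `PosDeg`. -/
def T_LSH : Prop := ∀ (Θ : Type) [Fintype Θ] [AddCommGroup Θ] (N h : ℕ) (D : (Fin N → Θ) → ℝ) (g : Fin N → Θ),
  PosDeg h D → PosDeg h (fun z => D (fun i => g i + z i))

/-- the share of a set of tables. -/
noncomputable def share {Θ : Type} [Fintype Θ] {N q : ℕ} (A : Finset (Fin N → Fin q → Θ)) : ℝ :=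
  (A.card : ℝ) / (Fintype.card (Fin N → Fin q → Θ) : ℝ)

/-- PSL: the psd lemma. A block value is `(g_i, ω_i)`, the letter is `g_i + s_i(ω_i)`. -/
def T_PSL : Prop := ∀ (Θ : Type) [Fintype Θ] [DecidableEq Θ] [AddCommGroup Θ] (p σ : ℝ), 1 < p → p < 3 / 2 →
  1 ≤ σ → ∀ (N q h : ℕ), 0 < q → ∀ (ι : Type) [Fintype ι] [DecidableEq ι]
  (A : Finset (Fin N → Fin q → Θ)) (P : (Fin N → Fin q → Θ) → Matrix ι ι ℝ)
  (S : (Fin N → Θ) → (Fin N → Fin q) → Matrix ι ι ℝ) (D v : (Fin N → Θ) → ℝ) (M m δ : ℝ),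
  (∀ s ∈ A, (P s).PosSemidef) → (∀ g ω, (S g ω).PosSemidef) → (∀ z, |D z| ≤ M) → PosDeg h D →
  av D = 1 → av (fun z => D z * v z) = 0 → (∀ z, 0 ≤ v z) → (∀ z, v z ≤ m) → 0 < m → 0 < δ →
  (∀ s ∈ A, ∀ g ω, v (fun i => g i + s i (ω i)) - δ = (P s * S g ω).trace) →
  δ ^ 2 * share A ≤ 16 * M ^ 2 * m *
    XX (Fintype.card Θ) q p σ (Fintype.card ι) (2 * m) (share A * (Fintype.card ι : ℝ) ^ p) N h

/-- EXP: the exponent `1/2`. -/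
def T_EXP : Prop := ∀ (Θ : Type) [Fintype Θ] [DecidableEq Θ] [AddCommGroup Θ] (e : ℝ), 0 < e → 1 < Fintype.card Θ →
  ∃ (q₀ : ℕ) (e₁ : ℝ), 0 < e₁ ∧ ∀ q : ℕ, q₀ ≤ q → ∀ (N h : ℕ), (1 - e₁) * N ≤ 2 * (h + 1) →
  ∀ (ι : Type) [Fintype ι] [DecidableEq ι]
  (A : Finset (Fin N → Fin q → Θ)) (P : (Fin N → Fin q → Θ) → Matrix ι ι ℝ)
  (S : (Fin N → Θ) → (Fin N → Fin q) → Matrix ι ι ℝ) (D v : (Fin N → Θ) → ℝ) (m δ : ℝ),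
  (∀ s ∈ A, (P s).PosSemidef) → (∀ g ω, (S g ω).PosSemidef) →
  (∀ z, |D z| ≤ (Fintype.card Θ : ℝ) ^ N) → PosDeg h D →
  av D = 1 → av (fun z => D z * v z) = 0 → (∀ z, 0 ≤ v z) → (∀ z, v z ≤ m) → 0 < m → m ≤ 2 ^ N →
  ((2 : ℝ) ^ N)⁻¹ ≤ δ → ((2 : ℝ) ^ N)⁻¹ ≤ share A →
  (∀ s ∈ A, ∀ g ω, v (fun i => g i + s i (ω i)) - δ = (P s * S g ω).trace) →
  (((Fintype.card Θ : ℝ) * q) ^ N) ^ (1 / 2 - e) ≤ (Fintype.card ι : ℝ)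

end H43.PS
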