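import Pool.Agent.H43.PS.Targets

/-! Row BRP of the board `psd_modules`. -/

namespace H43.PS

open Matrix Finset

theorem BRP (hKLE : T_KLE) (hPOW : T_POW) : T_BRP := by
  intro κ _ _ x v A B p hp1 hp2 hA hB hx hv
  subst hx
  subst hv
  have h1 := hPOW κ A B (2 * p - 1) hA hB (by linarith) (by linarith)
  have h2 := hKLE κ A B p hA hB hp1 (by linarith)
  have h3 : (1 : ℝ) + (2 * p - 1) = 2 * p := by ring
  rw [h3] at h1
  have h4 := mul_le_mul_of_nonneg_left h1 (show (0 : ℝ) ≤ p - 1 by linarith)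
  linarith

end H43.PS
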