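import Pool.Agent.H43.PS.Targets

/-! Row INT of the board `psd_modules`. -/

namespace H43.PS

open MeasureTheory Set Real

theorem INT : T_INT := by
  intro s hs1 hs2
  have hp : s - 1 ∈ Ioo (0 : ℝ) 1 := ⟨by linarith, by linarith⟩
  refine ⟨∫ u in Ioi (0 : ℝ), rpowIntegrand₀₁ (s - 1) u 1,
    integral_rpowIntegrand₀₁_one_pos hp, fun t ht => ?_⟩
  have heq : EqOn (fun u : ℝ => u ^ (s - 2) * (t ^ 2 / (t + u)))
      (fun u => t * rpowIntegrand₀₁ (s - 1) u t) (Ioi 0) := by
    intro u hu
    have hu' : (0 : ℝ) < u := hu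
    simp only
    rw [rpowIntegrand₀₁_eq_pow_div hp hu'.le ht]
    have e : s - 1 - 1 = s - 2 := by ring
    rw [e, add_comm u t]
    ring
  constructor
  · refine IntegrableOn.congr_fun ?_ (fun u hu => (heq hu).symm) measurableSet_Ioi
    exact (integrableOn_rpowIntegrand₀₁_Ioi hp ht).const_mul t
  · rw [setIntegral_congr_fun measurableSet_Ioi heq, integral_const_mul,
      integral_rpowIntegrand₀₁_eq_rpow_mul_const hp ht]
    have : t * t ^ (s - 1) = t ^ s := by
      rcases eq_or_lt_of_le ht with h | h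
      · rw [← h, Real.zero_rpow (by linarith), zero_mul, Real.zero_rpow (by linarith)]
      · rw [Real.rpow_sub_one h.ne', mul_div_cancel₀ _ h.ne']
    rw [← mul_assoc, this, mul_comm]

end H43.PS
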