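import Pool.Agent.H43.PS.Targets

/-! Row KLE of the board `psd_modules`. -/

namespace H43.PS

open Matrix Finset

private theorem tr_two {κ : Type} [Fintype κ] [DecidableEq κ] (U V : Matrix κ κ ℝ) (f g : κ → ℝ) :
    ((U * diagonal f * Uᵀ) * (V * diagonal g * Vᵀ)).trace =
      ∑ i, ∑ j, (Uᵀ * V) i j ^ 2 * (f i * g j) := by
  have h1 : ((U * diagonal f * Uᵀ) * (V * diagonal g * Vᵀ)).trace =
      ((diagonal f * (Uᵀ * V)) * (diagonal g * (Uᵀ * V)ᵀ)).trace := by
    rw [Matrix.transpose_mul, Matrix.transpose_transpose]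
    have : (U * diagonal f * Uᵀ) * (V * diagonal g * Vᵀ) =
        U * ((diagonal f * (Uᵀ * V)) * (diagonal g * Vᵀ)) := by
      simp only [Matrix.mul_assoc]
    rw [this, Matrix.trace_mul_comm]
    simp only [Matrix.mul_assoc]
  rw [h1, Matrix.trace]
  refine Finset.sum_congr rfl fun i _ => ?_
  rw [Matrix.diag_apply, Matrix.mul_apply]
  refine Finset.sum_congr rfl fun j _ => ?_
  rw [Matrix.diagonal_mul, Matrix.diagonal_mul, Matrix.transpose_apply]
  ring

private theorem diag_sq {κ : Type} [Fintype κ] [DecidableEq κ] (U : Matrix κ κ ℝ) (a : κ → ℝ)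
    (hU : Uᵀ * U = 1) : (U * diagonal a * Uᵀ) * (U * diagonal a * Uᵀ) =
      U * diagonal (fun i => a i ^ 2) * Uᵀ := by
  calc (U * diagonal a * Uᵀ) * (U * diagonal a * Uᵀ)
      = U * diagonal a * (Uᵀ * U) * diagonal a * Uᵀ := by simp only [Matrix.mul_assoc]
    _ = U * (diagonal a * diagonal a) * Uᵀ := by
        rw [hU, Matrix.mul_one]; simp only [Matrix.mul_assoc]
    _ = _ := by
        rw [Matrix.diagonal_mul_diagonal]
        simp only [pow_two]

theorem KLE (hUNI : T_UNI) (hSPC : T_SPC) (hAMG : T_AMG) : T_KLE := by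
  intro κ _ _ A B p hA hB hp1 hp2
  obtain ⟨U, a, hU1, hU2, hAe, hAn, hAf⟩ := hSPC κ A hA.isHermitian
  obtain ⟨V, b, hV1, hV2, hBe, hBn, hBf⟩ := hSPC κ B hB.isHermitian
  have ha := hAn hA
  have hb := hBn hB
  have hAA : A * A = U * diagonal (fun i => a i ^ 2) * Uᵀ := by
    rw [hAe]; exact diag_sq U a hU1
  have hBB : B * B = V * diagonal (fun i => b i ^ 2) * Vᵀ := by
    rw [hBe]; exact diag_sq V b hV1
  have hAAf := hUNI κ U (fun i => a i ^ 2) (A * A) hU1 hAA
  have hBBf := hUNI κ V (fun i => b i ^ 2) (B * B) hV1 hBB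
  -- the weights
  have hone : V * diagonal (fun _ => (1 : ℝ)) * Vᵀ = 1 := by
    have : diagonal (fun _ : κ => (1 : ℝ)) = 1 := Matrix.diagonal_one
    rw [this, Matrix.mul_one, hV2]
  have hone' : U * diagonal (fun _ => (1 : ℝ)) * Uᵀ = 1 := by
    have : diagonal (fun _ : κ => (1 : ℝ)) = 1 := Matrix.diagonal_one
    rw [this, Matrix.mul_one, hU2]
  set w : κ → κ → ℝ := fun i j => (Uᵀ * V) i j ^ 2 with hw
  have trA : ∀ f : κ → ℝ, (U * diagonal f * Uᵀ).trace = ∑ i, ∑ j, w i j * f i := by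
    intro f
    have := tr_two U V f (fun _ => 1)
    rw [hone, Matrix.mul_one] at this
    rw [this]
    simp only [mul_one, hw]
  have trB : ∀ g : κ → ℝ, (V * diagonal g * Vᵀ).trace = ∑ i, ∑ j, w i j * g j := by
    intro g
    have := tr_two U V (fun _ => 1) g
    rw [hone', Matrix.one_mul] at this
    rw [this]
    simp only [one_mul, hw]
  have trAB : ∀ f g : κ → ℝ, ((U * diagonal f * Uᵀ) * (V * diagonal g * Vᵀ)).trace =
      ∑ i, ∑ j, w i j * (f i * g j) := fun f g => tr_two U V f g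
  have mulA : ∀ f g : κ → ℝ, (U * diagonal f * Uᵀ) * (U * diagonal g * Uᵀ) =
      U * diagonal (fun i => f i * g i) * Uᵀ := by
    intro f g
    calc (U * diagonal f * Uᵀ) * (U * diagonal g * Uᵀ)
        = U * diagonal f * (Uᵀ * U) * diagonal g * Uᵀ := by simp only [Matrix.mul_assoc]
      _ = U * (diagonal f * diagonal g) * Uᵀ := by
          rw [hU1, Matrix.mul_one]; simp only [Matrix.mul_assoc]
      _ = _ := by rw [Matrix.diagonal_mul_diagonal]
  have mulB : ∀ f g : κ → ℝ, (V * diagonal f * Vᵀ) * (V * diagonal g * Vᵀ) =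
      V * diagonal (fun i => f i * g i) * Vᵀ := by
    intro f g
    calc (V * diagonal f * Vᵀ) * (V * diagonal g * Vᵀ)
        = V * diagonal f * (Vᵀ * V) * diagonal g * Vᵀ := by simp only [Matrix.mul_assoc]
      _ = V * (diagonal f * diagonal g) * Vᵀ := by
          rw [hV1, Matrix.mul_one]; simp only [Matrix.mul_assoc]
      _ = _ := by rw [Matrix.diagonal_mul_diagonal]
  -- left side
  have hL : ((A - B) * (fm (fun t => t ^ (2 * p - 1)) A - fm (fun t => t ^ (2 * p - 1)) B)).trace =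
      ∑ i, ∑ j, w i j * ((a i - b j) * (a i ^ (2 * p - 1) - b j ^ (2 * p - 1))) := by
    rw [(hAf _).1, (hBf _).1]
    have e1 : (A - B) * (U * diagonal (fun i => a i ^ (2 * p - 1)) * Uᵀ -
        V * diagonal (fun i => b i ^ (2 * p - 1)) * Vᵀ) =
        A * (U * diagonal (fun i => a i ^ (2 * p - 1)) * Uᵀ) -
        A * (V * diagonal (fun i => b i ^ (2 * p - 1)) * Vᵀ) -
        (B * (U * diagonal (fun i => a i ^ (2 * p - 1)) * Uᵀ) -
        B * (V * diagonal (fun i => b i ^ (2 * p - 1)) * Vᵀ)) := by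
      rw [sub_mul, mul_sub, mul_sub]
    rw [e1, Matrix.trace_sub, Matrix.trace_sub, Matrix.trace_sub,
      Matrix.trace_mul_comm B (U * diagonal (fun i => a i ^ (2 * p - 1)) * Uᵀ)]
    rw [hAe, hBe, mulA, mulB, trA, trB, trAB, trAB]
    rw [← Finset.sum_sub_distrib, ← Finset.sum_sub_distrib, ← Finset.sum_sub_distrib]
    refine Finset.sum_congr rfl fun i _ => ?_
    rw [← Finset.sum_sub_distrib, ← Finset.sum_sub_distrib, ← Finset.sum_sub_distrib]
    refine Finset.sum_congr rfl fun j _ => ?_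
    ring
  have hpa : ∀ t : ℝ, 0 ≤ t → (t ^ 2) ^ p = t ^ (2 * p) := by
    intro t ht
    rw [← Real.rpow_natCast t 2, ← Real.rpow_mul ht]
    norm_num
  have hpb : ∀ t : ℝ, 0 ≤ t → (t ^ 2) ^ (p - 1) = t ^ (2 * p - 2) := by
    intro t ht
    rw [← Real.rpow_natCast t 2, ← Real.rpow_mul ht]
    congr 1
    push_cast
    ring
  have h1 : tp p (A * A) = ∑ i, ∑ j, w i j * a i ^ (2 * p) := by
    have e := (hAAf (fun t => t ^ p)).1
    have : tp p (A * A) = (fm (fun t => t ^ p) (A * A)).trace := rfl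
    rw [this, e, trA]
    refine Finset.sum_congr rfl fun i _ => Finset.sum_congr rfl fun j _ => ?_
    rw [hpa _ (ha i)]
  have h2 : tp p (B * B) = ∑ i, ∑ j, w i j * b j ^ (2 * p) := by
    have e := (hBBf (fun t => t ^ p)).1
    have : tp p (B * B) = (fm (fun t => t ^ p) (B * B)).trace := rfl
    rw [this, e, trB]
    refine Finset.sum_congr rfl fun i _ => Finset.sum_congr rfl fun j _ => ?_
    rw [hpa _ (hb j)]
  have h3 : (fm (fun t => t ^ (p - 1)) (B * B) * (A * A - B * B)).trace =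
      ∑ i, ∑ j, w i j * (b j ^ (2 * p - 2) * (a i ^ 2 - b j ^ 2)) := by
    rw [(hBBf (fun t => t ^ (p - 1))).1, mul_sub, Matrix.trace_sub,
      Matrix.trace_mul_comm _ (A * A), hAA, hBB, trAB, mulB, trB, ← Finset.sum_sub_distrib]
    refine Finset.sum_congr rfl fun i _ => ?_
    rw [← Finset.sum_sub_distrib]
    refine Finset.sum_congr rfl fun j _ => ?_
    rw [hpb _ (hb j)]
    ring
  rw [hL, h1, h2, h3, Finset.mul_sum, Finset.mul_sum, ← Finset.sum_sub_distrib,
    ← Finset.sum_sub_distrib]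
  refine Finset.sum_le_sum fun i _ => ?_
  rw [Finset.mul_sum, Finset.mul_sum, ← Finset.sum_sub_distrib, ← Finset.sum_sub_distrib]
  refine Finset.sum_le_sum fun j _ => ?_
  have hwn : 0 ≤ w i j := by rw [hw]; positivity
  have := mul_le_mul_of_nonneg_left (hAMG p (a i) (b j) hp1 hp2 (ha i) (hb j)) hwn
  calc (p - 1) * (w i j * ((a i - b j) * (a i ^ (2 * p - 1) - b j ^ (2 * p - 1))))
      = w i j * ((p - 1) * ((a i - b j) * (a i ^ (2 * p - 1) - b j ^ (2 * p - 1)))) := by ring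
    _ ≤ w i j * (a i ^ (2 * p) - b j ^ (2 * p) - p * (b j ^ (2 * p - 2) * (a i ^ 2 - b j ^ 2))) := this
    _ = _ := by ring

end H43.PS
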