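import Pool.Agent.H77.PS.UNI
import Pool.Agent.H37.PS.SPC
import Pool.Agent.H77.PS.SQR
import Pool.Agent.H78.PS.GRM
import Pool.Agent.H24.PS.SCL
import Pool.Agent.H37.PS.RIX
import Pool.Agent.H24.PS.NNG
import Pool.Agent.H11.PSD.TRP
import Pool.Agent.H2.PS.RES
import Pool.Agent.H78.PS.PM
import Pool.Agent.H98.PSD.RAB
import Pool.Agent.H66.PS.RAU
import Pool.Agent.H43.PS.INT
import Pool.Agent.H99.PS.POW
import Pool.Agent.H55.PS.AMG
import Pool.Agent.H43.PS.KLE
import Pool.Agent.H43.PS.BRP
import Pool.Agent.H98.PSD.CVX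
import Pool.Agent.H99.PS.SPL
import Pool.Agent.H86.PS.VEC

/-! Assembly of the analytic rows of the board `psd_modules`: the functional calculus, the matrix
inequality, the split at one letter, Gram vectors. -/

namespace H43.PS.All

theorem uni : T_UNI := UNI
theorem spc : T_SPC := SPC uni
theorem sqr : T_SQR := SQR
theorem grm : T_GRM := GRM uni spc
theorem scl : T_SCL := SCL uni spc
theorem rix : T_RIX := RIX uni spc
theorem nng : T_NNG := NNG spc
theorem trp : T_TRP := Pool.Agent.H11.PSD.TRP spc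
theorem pow : T_POW :=
  POW spc (Pool.Agent.H66.PS.RAU uni spc (H98.PSD.RAB (RES uni spc) (PM uni spc))) INT
theorem brp : T_BRP := BRP (KLE uni spc AMG) pow
theorem cvx : T_CVX := H98.PSD.CVX sqr brp scl nng
theorem spl : T_SPL := SPL sqr brp cvx grm scl
theorem vec : T_VEC := VEC sqr

end H43.PS.All
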