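import Pool.Agent.H43.PS.AllA
import Pool.Agent.H2.PS.STI
import Pool.Agent.H38.PS.STP
import Pool.Agent.H60.PS.DEC
import Pool.Agent.H86.PS.CLW
import Pool.Agent.H41.PS.CCS
import Pool.Agent.H32.PS.VLM
import Pool.Agent.H54.PS.SDP
import Pool.Agent.H32.PS.DTM
import Pool.Agent.H40.PS.DTD
import Pool.Agent.H55.PS.NRM
import Pool.Agent.H63.PSD.LSH
import Pool.Agent.H76.PS.PSL
import Pool.Agent.H68.PSD.EXP

/-! Assembly of the board `psd_modules`: square decomposition, main lemma, normalisation, exponent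
`1/2`. -/

namespace H43.PS.All

theorem dec : T_DEC := DEC (STP (STI spl cvx nng) nng) rix
theorem sdp : T_SDP := H54.PS.SDP dec vec (VLM CLW CCS) trp nng
theorem nrm : T_NRM := NRM DTM DTD sqr
theorem psl : T_PSL := H76.PS.PSL sdp nrm trp Pool.Agent.H63.PSD.LSH
theorem exp : T_EXP := Pool.Agent.H68.PSD.EXP psl

end H43.PS.All
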