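import Mathlib

/-! Square decomposition for semidefinite relaxations (board `psd_modules`, MP_c62aed_lc): definitions. -/

namespace H43.PS

open Matrix Finset

noncomputable section

/-- `f` applied to a real symmetric matrix (`0` if the matrix is not symmetric). -/
def fm {κ : Type} [Fintype κ] [DecidableEq κ] (f : ℝ → ℝ) (A : Matrix κ κ ℝ) : Matrix κ κ ℝ :=
  open Classical in
  if h : A.IsHermitian then
    (h.eigenvectorUnitary : Matrix κ κ ℝ) * diagonal (fun i => f (h.eigenvalues i)) *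
      (h.eigenvectorUnitary : Matrix κ κ ℝ)ᵀ
  else 0

/-- trace of `f(A)`. -/
def tf {κ : Type} [Fintype κ] [DecidableEq κ] (f : ℝ → ℝ) (A : Matrix κ κ ℝ) : ℝ := (fm f A).trace

/-- trace of the `p`-th power (used for psd matrices only). -/
def tp {κ : Type} [Fintype κ] [DecidableEq κ] (p : ℝ) (A : Matrix κ κ ℝ) : ℝ :=
  tf (fun t => t ^ p) A

/-- trace of `|A|^p`. -/
def ta {κ : Type} [Fintype κ] [DecidableEq κ] (p : ℝ) (A : Matrix κ κ ℝ) : ℝ :=
  tf (fun t => |t| ^ p) A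

/-- the coefficient of the index `u` at the letter `θ`: `1` for `none`, `σ⁻¹ 1[θ' = θ]` for `some θ'`. -/
def cc {Θ : Type} [DecidableEq Θ] (σ : ℝ) (θ : Θ) : Option Θ → ℝ
  | none => 1
  | some θ' => if θ' = θ then σ⁻¹ else 0

/-- product of the coefficients. -/
def cz {Θ : Type} [DecidableEq Θ] {N : ℕ} (σ : ℝ) (z : Fin N → Θ) (u : Fin N → Option Θ) : ℝ :=
  ∏ i, cc σ (z i) (u i)

/-- number of coordinates with a value. -/
def dg {Θ : Type} {N : ℕ} (u : Fin N → Option Θ) : ℕ :=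
  (univ.filter (fun i => (u i).isSome = true)).card

/-- `f` is a sum of functions each of which depends on at most `h` of the `N` letters. -/
def Low {Θ : Type} {N : ℕ} (h : ℕ) (f : (Fin N → Θ) → ℝ) : Prop :=
  ∃ F : Finset (Fin N) → (Fin N → Θ) → ℝ,
    (∀ T : Finset (Fin N), ∀ z z' : Fin N → Θ, (∀ i ∈ T, z i = z' i) → F T z = F T z') ∧
    ∀ z, f z = ∑ T ∈ univ.filter (fun T : Finset (Fin N) => T.card ≤ h), F T z

/-- `D` is nonnegative on squares of functions of degree `≤ h`. -/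
def PosDeg {Θ : Type} [Fintype Θ] {N : ℕ} (h : ℕ) (D : (Fin N → Θ) → ℝ) : Prop :=
  ∀ f : (Fin N → Θ) → ℝ, Low h f → 0 ≤ ∑ z, D z * f z ^ 2

/-- uniform average. -/
def av {X : Type} [Fintype X] (f : X → ℝ) : ℝ := (Fintype.card X : ℝ)⁻¹ * ∑ x, f x

/-- uniform average of matrices. -/
def avm {X κ : Type} [Fintype X] (g : X → Matrix κ κ ℝ) : Matrix κ κ ℝ :=
  (Fintype.card X : ℝ)⁻¹ • ∑ x, g x

end

end H43.PS
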