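import Pool.Agent.H43.PS.Targets

namespace H43.PS

theorem skel
    (UNI : T_UNI) (SPC : T_UNI → T_SPC) (SQR : T_SQR) (GRM : T_UNI → T_SPC → T_GRM)
    (SCL : T_UNI → T_SPC → T_SCL) (RIX : T_UNI → T_SPC → T_RIX) (NNG : T_SPC → T_NNG) (TRP : T_SPC → T_TRP)
    (RES : T_UNI → T_SPC → T_RES) (PM : T_UNI → T_SPC → T_PM) (RAB : T_RES → T_PM → T_RAB)
    (RAU : T_UNI → T_SPC → T_RAB → T_RAU) (INT : T_INT) (POW : T_SPC → T_RAU → T_INT → T_POW)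
    (AMG : T_AMG) (KLE : T_UNI → T_SPC → T_AMG → T_KLE) (BRP : T_KLE → T_POW → T_BRP)
    (CVX : T_SQR → T_BRP → T_SCL → T_NNG → T_CVX)
    (SPL : T_SQR → T_BRP → T_CVX → T_GRM → T_SCL → T_SPL) (STI : T_SPL → T_CVX → T_NNG → T_STI)
    (STP : T_STI → T_NNG → T_STP) (DEC : T_STP → T_RIX → T_DEC) (VEC : T_SQR → T_VEC)
    (CLW : T_CLW) (CCS : T_CCS) (VLM : T_CLW → T_CCS → T_VLM)
    (SDP : T_DEC → T_VEC → T_VLM → T_TRP → T_NNG → T_SDP)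
    (DTM : T_DTM) (DTD : T_DTD) (NRM : T_DTM → T_DTD → T_SQR → T_NRM) : T_SDP ∧ T_NRM ∧ T_TRP := by
  have hSPC := SPC UNI
  have hNNG := NNG hSPC
  have hTRP := TRP hSPC
  have hSCL := SCL UNI hSPC
  have hPOW := POW hSPC (RAU UNI hSPC (RAB (RES UNI hSPC) (PM UNI hSPC))) INT
  have hBRP := BRP (KLE UNI hSPC AMG) hPOW
  have hCVX := CVX SQR hBRP hSCL hNNG
  have hSPL := SPL SQR hBRP hCVX (GRM UNI hSPC) hSCL
  have hDEC := DEC (STP (STI hSPL hCVX hNNG) hNNG) (RIX UNI hSPC)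
  exact ⟨SDP hDEC (VEC SQR) (VLM CLW CCS) hTRP hNNG, NRM DTM DTD SQR, hTRP⟩

end H43.PS
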