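import Pool.Agent.H43.PS.Defs

/-! Targets of the board `psd_modules`. -/

namespace H43.PS

open Matrix Finset

/-! ### Functional calculus -/

/-- UNI: any orthogonal diagonalisation computes `fm`, `tf`. -/
def T_UNI : Prop := ∀ (κ : Type) [Fintype κ] [DecidableEq κ] (U : Matrix κ κ ℝ) (a : κ → ℝ) (A : Matrix κ κ ℝ),
  Uᵀ * U = 1 → A = U * diagonal a * Uᵀ →
    ∀ f : ℝ → ℝ, fm f A = U * diagonal (fun i => f (a i)) * Uᵀ ∧ tf f A = ∑ i, f (a i)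

/-- SPC: spectral theorem, psd version included. -/
def T_SPC : Prop := ∀ (κ : Type) [Fintype κ] [DecidableEq κ] (A : Matrix κ κ ℝ), A.IsHermitian →
  ∃ (U : Matrix κ κ ℝ) (a : κ → ℝ), Uᵀ * U = 1 ∧ U * Uᵀ = 1 ∧ A = U * diagonal a * Uᵀ ∧
    (A.PosSemidef → ∀ i, 0 ≤ a i) ∧
    ∀ f : ℝ → ℝ, fm f A = U * diagonal (fun i => f (a i)) * Uᵀ ∧ tf f A = ∑ i, f (a i)

/-- SQR: psd square root. -/
def T_SQR : Prop := ∀ (κ : Type) [Fintype κ] [DecidableEq κ] (x : Matrix κ κ ℝ), x.PosSemidef →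
  ∃ A : Matrix κ κ ℝ, A.PosSemidef ∧ A * A = x

/-- GRM: `Tr f(XᵀX) = Tr f(XXᵀ)` when `f 0 = 0`. -/
def T_GRM : Prop := ∀ (κ ν : Type) [Fintype κ] [DecidableEq κ] [Fintype ν] [DecidableEq ν]
  (X : Matrix κ ν ℝ) (f : ℝ → ℝ), f 0 = 0 → tf f (Xᵀ * X) = tf f (X * Xᵀ)

/-- SCL: scaling and squares. -/
def T_SCL : Prop := ∀ (κ : Type) [Fintype κ] [DecidableEq κ] (p : ℝ), 0 < p →
  (∀ (c : ℝ) (X : Matrix κ κ ℝ), 0 ≤ c → X.PosSemidef → tp p (c • X) = c ^ p * tp p X) ∧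
  (∀ E : Matrix κ κ ℝ, E.IsHermitian → tp p (E * E) = ta (2 * p) E)

/-- RIX: reindexing. -/
def T_RIX : Prop := ∀ (κ ν : Type) [Fintype κ] [DecidableEq κ] [Fintype ν] [DecidableEq ν]
  (e : κ ≃ ν) (A : Matrix ν ν ℝ) (f : ℝ → ℝ), tf f (A.submatrix e e) = tf f A

/-- NNG: traces of nonnegative functions are nonnegative, also `tp`. -/
def T_NNG : Prop := ∀ (κ : Type) [Fintype κ] [DecidableEq κ] (A : Matrix κ κ ℝ),
  (∀ f : ℝ → ℝ, (∀ t, 0 ≤ f t) → 0 ≤ tf f A) ∧ (∀ p : ℝ, A.PosSemidef → 0 ≤ tp p A)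

/-- TRP: power means of the eigenvalues. -/
def T_TRP : Prop := ∀ (κ : Type) [Fintype κ] [DecidableEq κ] (p : ℝ) (X : Matrix κ κ ℝ), 1 < p → X.PosSemidef →
  X.trace ≤ (Fintype.card κ : ℝ) ^ (1 - 1 / p) * (tp p X) ^ (1 / p) ∧ tp p X ≤ X.trace ^ p

/-! ### The matrix inequality -/

/-- RES. -/
def T_RES : Prop := ∀ (κ : Type) [Fintype κ] [DecidableEq κ] (B E : Matrix κ κ ℝ),
  B.PosSemidef → E.PosSemidef →
  (E * ((1 + B)⁻¹ - (1 + B + E)⁻¹)).trace ≤ tf (fun t => t ^ 2 / (1 + t)) E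

/-- PM: positive and negative parts. -/
def T_PM : Prop := ∀ (κ : Type) [Fintype κ] [DecidableEq κ] (E : Matrix κ κ ℝ), E.IsHermitian →
  ∃ F G : Matrix κ κ ℝ, F.PosSemidef ∧ G.PosSemidef ∧ E = F - G ∧
    tf (fun t => t ^ 2 / (1 + t)) F + tf (fun t => t ^ 2 / (1 + t)) G = tf (fun t => t ^ 2 / (1 + |t|)) E

/-- RAB: (1.2) of the page. -/
def T_RAB : Prop := ∀ (κ : Type) [Fintype κ] [DecidableEq κ] (A B : Matrix κ κ ℝ),
  A.PosSemidef → B.PosSemidef →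
  ((A - B) * ((1 + B)⁻¹ - (1 + A)⁻¹)).trace ≤ tf (fun t => t ^ 2 / (1 + |t|)) (A - B)

/-- RAU: the same for `t^2/(t+u)`. -/
def T_RAU : Prop := ∀ (κ : Type) [Fintype κ] [DecidableEq κ] (A B : Matrix κ κ ℝ) (u : ℝ),
  A.PosSemidef → B.PosSemidef → 0 < u →
  tf (fun t => |t| * (t ^ 2 / (|t| + u))) (A - B) ≤
    ((A - B) * (fm (fun t => t ^ 2 / (t + u)) A - fm (fun t => t ^ 2 / (t + u)) B)).trace

/-- INT: integral representation of `t^s`, `1 < s < 2`. -/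
def T_INT : Prop := ∀ s : ℝ, 1 < s → s < 2 → ∃ c : ℝ, 0 < c ∧ ∀ t : ℝ, 0 ≤ t →
  MeasureTheory.IntegrableOn (fun u : ℝ => u ^ (s - 2) * (t ^ 2 / (t + u))) (Set.Ioi 0) ∧
  ∫ u in Set.Ioi (0 : ℝ), u ^ (s - 2) * (t ^ 2 / (t + u)) = c * t ^ s

/-- POW: (1.3) of the page. -/
def T_POW : Prop := ∀ (κ : Type) [Fintype κ] [DecidableEq κ] (A B : Matrix κ κ ℝ) (s : ℝ),
  A.PosSemidef → B.PosSemidef → 1 < s → s < 2 →
  ta (1 + s) (A - B) ≤ ((A - B) * (fm (fun t => t ^ s) A - fm (fun t => t ^ s) B)).trace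

/-- AMG: the scalar inequality. -/
def T_AMG : Prop := ∀ p a b : ℝ, 1 < p → p < 2 → 0 ≤ a → 0 ≤ b →
  (p - 1) * ((a - b) * (a ^ (2 * p - 1) - b ^ (2 * p - 1))) ≤
    a ^ (2 * p) - b ^ (2 * p) - p * (b ^ (2 * p - 2) * (a ^ 2 - b ^ 2))

/-- KLE: Klein's double sum. -/
def T_KLE : Prop := ∀ (κ : Type) [Fintype κ] [DecidableEq κ] (A B : Matrix κ κ ℝ) (p : ℝ),
  A.PosSemidef → B.PosSemidef → 1 < p → p < 2 →
  (p - 1) * ((A - B) * (fm (fun t => t ^ (2 * p - 1)) A - fm (fun t => t ^ (2 * p - 1)) B)).trace ≤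
    tp p (A * A) - tp p (B * B) - p * (fm (fun t => t ^ (p - 1)) (B * B) * (A * A - B * B)).trace

/-- BRP: (1.4) of the page. -/
def T_BRP : Prop := ∀ (κ : Type) [Fintype κ] [DecidableEq κ] (x v A B : Matrix κ κ ℝ) (p : ℝ),
  1 < p → p < 3 / 2 → A.PosSemidef → B.PosSemidef → A * A = x → B * B = v →
  (p - 1) * ta (2 * p) (A - B) ≤ tp p x - tp p v - p * (fm (fun t => t ^ (p - 1)) v * (x - v)).trace

/-! ### One letter, one block, all blocks -/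

/-- CVX: convexity of `Tr x^p`. -/
def T_CVX : Prop := ∀ (κ Θ : Type) [Fintype κ] [DecidableEq κ] [Fintype Θ] (x : Θ → Matrix κ κ ℝ) (p : ℝ),
  1 < p → p < 3 / 2 → 0 < Fintype.card Θ → (∀ θ, (x θ).PosSemidef) →
  tp p (avm x) ≤ av (fun θ => tp p (x θ)) ∧
  tp p (∑ θ, x θ) ≤ (Fintype.card Θ : ℝ) ^ (p - 1) * ∑ θ, tp p (x θ)

/-- SPL: the split at one letter. -/
def T_SPL : Prop := ∀ (κ Θ : Type) [Fintype κ] [DecidableEq κ] [Fintype Θ] [DecidableEq Θ]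
  (v : Θ → Matrix κ κ ℝ) (p σ : ℝ), 1 < p → p < 3 / 2 → 0 < σ → 0 < Fintype.card Θ →
  (∀ θ, (v θ).PosSemidef) →
  ∃ G : Matrix (Option Θ × κ) (Option Θ × κ) ℝ, G.PosSemidef ∧
    (∀ θ x y, v θ x y = ∑ u, ∑ u', cc σ θ u * cc σ θ u' * G (u, x) (u', y)) ∧
    tp p G ≤ ((Fintype.card Θ : ℝ) + 1) ^ (p - 1) *
      (tp p (avm v) + σ ^ (2 * p) * ((Fintype.card Θ : ℝ) / (p - 1) *
        (av (fun θ => tp p (v θ)) - tp p (avm v))))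

/-- STI: one block (table `a : Fin q → Θ`), the statement for the induction on `q`. -/
def T_STI : Prop := ∀ (κ Θ : Type) [Fintype κ] [DecidableEq κ] [Fintype Θ] [DecidableEq Θ]
  (p σ : ℝ), 1 < p → p < 3 / 2 → 0 < σ → 0 < Fintype.card Θ →
  ∀ (q : ℕ) (g : (Fin q → Θ) → Matrix κ κ ℝ), (∀ a, (g a).PosSemidef) →
  ∃ G : Fin q → Matrix (Option Θ × κ) (Option Θ × κ) ℝ, (∀ b, (G b).PosSemidef) ∧
    (∀ b θ x y, av (fun a : Fin q → Θ => (if a b = θ then (Fintype.card Θ : ℝ) else 0) * g a x y) =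
      ∑ u, ∑ u', cc σ θ u * cc σ θ u' * G b (u, x) (u', y)) ∧
    ∑ b, tp p (G b) ≤ ((Fintype.card Θ : ℝ) + 1) ^ (p - 1) *
      ((q : ℝ) * av (fun a => tp p (g a)) + σ ^ (2 * p) * ((Fintype.card Θ : ℝ) / (p - 1) *
        (av (fun a => tp p (g a)) - tp p (avm g))))

/-- the factor per block. -/
noncomputable def KK (Q q p σ : ℝ) : ℝ := (Q + 1) ^ (p - 1) * (1 + σ ^ (2 * p) * (Q / ((p - 1) * q)))

/-- STP: one block. -/
def T_STP : Prop := ∀ (κ Θ : Type) [Fintype κ] [DecidableEq κ] [Fintype Θ] [DecidableEq Θ]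
  (p σ : ℝ), 1 < p → p < 3 / 2 → 0 < σ → 0 < Fintype.card Θ →
  ∀ (q : ℕ) (g : (Fin q → Θ) → Matrix κ κ ℝ), 0 < q → (∀ a, (g a).PosSemidef) →
  ∃ G : Fin q → Matrix (Option Θ × κ) (Option Θ × κ) ℝ, (∀ b, (G b).PosSemidef) ∧
    (∀ b θ x y, av (fun a : Fin q → Θ => (if a b = θ then (Fintype.card Θ : ℝ) else 0) * g a x y) =
      ∑ u, ∑ u', cc σ θ u * cc σ θ u' * G b (u, x) (u', y)) ∧
    av (fun b => tp p (G b)) ≤ KK (Fintype.card Θ) q p σ * av (fun a => tp p (g a))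

/-- the density of the condition `z_i = a_i(b_i)`. -/
noncomputable def ind {Θ : Type} [Fintype Θ] [DecidableEq Θ] {N q : ℕ} (a : Fin N → Fin q → Θ) (b : Fin N → Fin q)
    (z : Fin N → Θ) : ℝ := ∏ i, (if a i (b i) = z i then (Fintype.card Θ : ℝ) else 0)

/-- DEC: square decomposition, all blocks. -/
def T_DEC : Prop := ∀ (Θ : Type) [Fintype Θ] [DecidableEq Θ] (p σ : ℝ), 1 < p → p < 3 / 2 → 0 < σ →
  0 < Fintype.card Θ → ∀ (N q : ℕ), 0 < q → ∀ (ι : Type) [Fintype ι] [DecidableEq ι]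
  (P : (Fin N → Fin q → Θ) → Matrix ι ι ℝ), (∀ a, (P a).PosSemidef) →
  ∃ G : (Fin N → Fin q) → Matrix ((Fin N → Option Θ) × ι) ((Fin N → Option Θ) × ι) ℝ,
    (∀ b, (G b).PosSemidef) ∧
    (∀ b z x y, av (fun a => ind a b z * P a x y) =
      ∑ u, ∑ u', cz σ z u * cz σ z u' * G b (u, x) (u', y)) ∧
    av (fun b => tp p (G b)) ≤ KK (Fintype.card Θ) q p σ ^ N * av (fun a => tp p (P a))

/-! ### Use of the pseudo-density -/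

/-- VEC: Gram vectors. -/
def T_VEC : Prop := ∀ (υ ι : Type) [Fintype υ] [DecidableEq υ] [Fintype ι] [DecidableEq ι]
  (G : Matrix (υ × ι) (υ × ι) ℝ) (S : Matrix ι ι ℝ), G.PosSemidef → S.PosSemidef →
  ∃ (μ : Type) (_ : Fintype μ) (w : υ → μ → ℝ),
    (∀ u u', ∑ x, ∑ y, G (u, x) (u', y) * S y x = ∑ m, w u m * w u' m) ∧
    ∑ u, ∑ m, w u m ^ 2 ≤ G.trace * S.trace

/-- CLW: the coefficient functions have low degree. -/
def T_CLW : Prop := ∀ (Θ : Type) [Fintype Θ] [DecidableEq Θ] (N h : ℕ) (σ : ℝ) (w : (Fin N → Option Θ) → ℝ),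
  Low h (fun z : Fin N → Θ => ∑ u ∈ univ.filter (fun u => dg u ≤ h), cz σ z u * w u)

/-- CCS: the high part is small. -/
def T_CCS : Prop := ∀ (Θ : Type) [Fintype Θ] [DecidableEq Θ] (N h : ℕ) (σ : ℝ) (w : (Fin N → Option Θ) → ℝ)
  (z : Fin N → Θ), 1 ≤ σ →
  (∑ u ∈ univ.filter (fun u => h < dg u), cz σ z u * w u) ^ 2 ≤
    2 ^ N * (σ⁻¹) ^ (2 * (h + 1)) * ∑ u, w u ^ 2

/-- VLM: the vector lemma. -/
def T_VLM : Prop := ∀ (Θ : Type) [Fintype Θ] [DecidableEq Θ] (N h : ℕ) (σ M : ℝ) (μ : Type) [Fintype μ]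
  (w : (Fin N → Option Θ) → μ → ℝ) (D : (Fin N → Θ) → ℝ) (X : ℝ), 1 ≤ σ → 0 < Fintype.card Θ →
  (∀ z, |D z| ≤ M) → PosDeg h D →
  2 ^ N * (σ⁻¹) ^ (2 * (h + 1)) * ∑ u, ∑ m, w u m ^ 2 ≤ X →
  - (M * (2 * Real.sqrt (av (fun z : Fin N → Θ => ∑ m, (∑ u, cz σ z u * w u m) ^ 2) * X) + X)) ≤
    av (fun z : Fin N → Θ => D z * ∑ m, (∑ u, cz σ z u * w u m) ^ 2)

/-- the error term. -/
noncomputable def XX (Q q p σ r κ₀ W : ℝ) (N h : ℕ) : ℝ :=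
  2 ^ N * (σ⁻¹) ^ (2 * (h + 1)) * κ₀ * ((r * (Q + 1) ^ N) ^ (1 - 1 / p) * (KK Q q p σ ^ N * W) ^ (1 / p))

/-- SDP: the main lemma. -/
def T_SDP : Prop := ∀ (Θ : Type) [Fintype Θ] [DecidableEq Θ] (p σ : ℝ), 1 < p → p < 3 / 2 → 1 ≤ σ →
  0 < Fintype.card Θ → ∀ (N q h : ℕ), 0 < q → ∀ (ι : Type) [Fintype ι] [DecidableEq ι]
  (P : (Fin N → Fin q → Θ) → Matrix ι ι ℝ) (S : (Fin N → Fin q) → Matrix ι ι ℝ)
  (D : (Fin N → Θ) → ℝ) (M κ₀ : ℝ),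
  (∀ a, (P a).PosSemidef) → (∀ b, (S b).PosSemidef) → (∀ b, (S b).trace ≤ κ₀) →
  (∀ z, |D z| ≤ M) → PosDeg h D →
  - (M * (2 * Real.sqrt (av (fun ab : (Fin N → Fin q → Θ) × (Fin N → Fin q) => (P ab.1 * S ab.2).trace) *
      XX (Fintype.card Θ) q p σ (Fintype.card ι) κ₀ (av (fun a => tp p (P a))) N h) +
      XX (Fintype.card Θ) q p σ (Fintype.card ι) κ₀ (av (fun a => tp p (P a))) N h)) ≤
    av (fun ab : (Fin N → Fin q → Θ) × (Fin N → Fin q) =>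
      D (fun i => ab.1 i (ab.2 i)) * (P ab.1 * S ab.2).trace)

/-! ### Normalisation -/

/-- DTM: maximum of the determinant on a simplex. -/
def T_DTM : Prop := ∀ (κ α : Type) [Fintype κ] [DecidableEq κ] [Fintype α] [Nonempty α] (P : α → Matrix κ κ ℝ),
  (∀ a, (P a).PosDef) → ∃ w : α → ℝ, (∀ a, 0 ≤ w a) ∧ ∑ a, w a = 1 ∧
    ∀ w' : α → ℝ, (∀ a, 0 ≤ w' a) → ∑ a, w' a = 1 → (∑ a, w' a • P a).det ≤ (∑ a, w a • P a).det

/-- DTD: the derivative of the determinant. -/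
def T_DTD : Prop := ∀ (κ : Type) [Fintype κ] [DecidableEq κ] (S₀ P : Matrix κ κ ℝ), S₀.PosDef → P.IsHermitian →
  (∀ t : ℝ, 0 ≤ t → t ≤ 1 → (S₀ + t • (P - S₀)).det ≤ S₀.det) → (S₀⁻¹ * P).trace ≤ Fintype.card κ

/-- NRM: normalisation of a psd factorisation. -/
def T_NRM : Prop := ∀ (κ α β : Type) [Fintype κ] [DecidableEq κ] [Fintype α] [Fintype β]
  (P : α → Matrix κ κ ℝ) (S : β → Matrix κ κ ℝ) (m : ℝ), 0 < m → (∀ a, (P a).PosSemidef) →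
  (∀ b, (S b).PosSemidef) → (∀ a b, (P a * S b).trace ≤ m) →
  ∃ (P' : α → Matrix κ κ ℝ) (S' : β → Matrix κ κ ℝ), (∀ a, (P' a).PosSemidef) ∧ (∀ b, (S' b).PosSemidef) ∧
    (∀ a b, (P' a * S' b).trace = (P a * S b).trace) ∧
    (∀ a, (P' a).trace ≤ Fintype.card κ) ∧ (∀ b, (S' b).trace ≤ 2 * m)

end H43.PS
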